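import Mathlib
import Pool.Agent.MP_161a40_an.H93.Open

set_option autoImplicit false

namespace Pool.Agent.Results.MP_161a40_an.NotRunge

open Metric Set

/-- `Ω` is an open subset of `ℂ²` that is biholomorphic to `ℂ²`: a holomorphic map `g` sends `ℂ²`
onto `Ω` and has a holomorphic inverse `h` on `Ω`. -/
def IsBiholomorphicToPlane (Ω : Set (EuclideanSpace ℂ (Fin 2))) : Prop :=
  IsOpen Ω ∧ ∃ g h : EuclideanSpace ℂ (Fin 2) → EuclideanSpace ℂ (Fin 2),
    Differentiable ℂ g ∧ range g = Ω ∧ DifferentiableOn ℂ h Ω ∧ ∀ z, h (g z) = z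

/-- A normalized injective holomorphic map `f` of the unit ball of `ℂ²`, a radius `r < 1`, a
holomorphic function `F` on the open set `f(rB)` and a compact `K ⊆ f(rB)` such that `F` stays
at distance at least `ε` on `K` from every function holomorphic on a domain that contains `K` and
is biholomorphic to `ℂ²`. -/
theorem result :
    ∃ (f : EuclideanSpace ℂ (Fin 2) → EuclideanSpace ℂ (Fin 2)) (r : ℝ),
      DifferentiableOn ℂ f (ball 0 1) ∧ InjOn f (ball 0 1) ∧ f 0 = 0 ∧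
      HasFDerivAt f (ContinuousLinearMap.id ℂ (EuclideanSpace ℂ (Fin 2))) 0 ∧
      0 < r ∧ r < 1 ∧ IsOpen (f '' ball 0 r) ∧
      ∃ (F : EuclideanSpace ℂ (Fin 2) → ℂ) (K : Set (EuclideanSpace ℂ (Fin 2))) (ε : ℝ),
        DifferentiableOn ℂ F (f '' ball 0 r) ∧ IsCompact K ∧ K ⊆ f '' ball 0 r ∧ 0 < ε ∧
        ∀ Ω : Set (EuclideanSpace ℂ (Fin 2)), IsBiholomorphicToPlane Ω → K ⊆ Ω →
          ∀ G : EuclideanSpace ℂ (Fin 2) → ℂ, DifferentiableOn ℂ G Ω →
            ∃ z ∈ K, ε ≤ ‖F z - G z‖ := by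
  have δ0 := MP_161a40_an.H4.d0_pos
  have δ1 := MP_161a40_an.H4.d0_le
  obtain ⟨F, hF, hFe⟩ := MP_161a40_an.H4.exists_F0 (r := 1 - MP_161a40_an.H4.d0 / 32) (by linarith)
  refine ⟨MP_161a40_an.H4.ff, 1 - MP_161a40_an.H4.d0 / 32,
    fun x hx => (MP_161a40_an.H4.differentiableAt_ff
      (mem_ball_zero_iff.1 hx)).differentiableWithinAt,
    MP_161a40_an.H4.injOn_ff, MP_161a40_an.H4.ff_zero, ?_, by linarith, by linarith,
    MP_161a40_an.H93.isOpen_image (by linarith), F,
    MP_161a40_an.H4.ff '' closedBall 0 (1 - MP_161a40_an.H4.d0 / 16), MP_161a40_an.H4.d0 / 512,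
    hF, ?_, image_mono (closedBall_subset_ball (by linarith)), by positivity, ?_⟩
  · rw [← MP_161a40_an.H4.fderiv_ff]
    exact (MP_161a40_an.H4.differentiableAt_ff (by simp)).hasFDerivAt
  · exact (isCompact_closedBall _ _).image_of_continuousOn fun x hx =>
      (MP_161a40_an.H4.differentiableAt_ff
        (by linarith [mem_closedBall_zero_iff.1 hx])).continuousAt.continuousWithinAt
  · rintro Ω ⟨hΩ, g, h, hg, hr, hh, hhg⟩ hK G hG
    by_contra hcon
    push Not at hcon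
    exact MP_161a40_an.H93.no_approx hΩ hK hg hr hh hhg hFe hG hcon

end Pool.Agent.Results.MP_161a40_an.NotRunge
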